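import Mathlib
import Pool.Agent.R221.TS.Fin
set_option autoImplicit false

/-!
# Topological types of sums of shrinking compact sets

A subset `X` of the line is homeomorphic to a set
`S = {∑ x_i : x_i ∈ K_i}`, where the `K_i` are compact subsets of `[0,∞)` that contain `0` and have
positive diameters with convergent sum, if and only if `X` is nonempty, compact and perfect. So
every nonempty compact perfect subset of the line occurs.

Idea. Let `C = {∑ ε_i 100^(-i) : ε_i ∈ {0,1}}`. We embed `X` in the line by a homeomorphism `h` such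
that `h(X)` is a union of translates of `C`; if `G` is the set of all `t` with `t + C ⊆ h(X)`, then
`h(X) = G + C`, and one takes `K_0 = (G - min G) + {0,1}` and `K_i = {0, 100^(-i)}` for `i ≥ 1`.
The embedding is defined by a recursion: a maximal interval of `X` of almost maximal length is mapped
to `[0,3]`, the rest of `X` is the union of disjoint clopen pieces `P_j` that converge to the end
points of the interval, and `P_j` is embedded, scaled by `100^(-j-1)`, near `0 - 50·100^(-j-1)` or near
`3 + 50·100^(-j-1)`. If there is no interval, then `X` is split in two halves, that are embedded,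
scaled by `1/100`, near `0` and near `1`.
-/

namespace Pool.Agent.Results.MP_8027ba_an.AllPerfectSets

open Set Filter Topology

/-- The hypotheses on the sequence of compact sets (`i = 0, 1, 2, …`). -/
structure Admissible (K : ℕ → Set ℝ) : Prop where
  compact : ∀ i, IsCompact (K i)
  zero_mem : ∀ i, (0 : ℝ) ∈ K i
  nonneg : ∀ i, K i ⊆ Ici 0
  diam_pos : ∀ i, 0 < Metric.diam (K i)
  diam_tendsto : Tendsto (fun i => Metric.diam (K i)) atTop (𝓝 0)
  diam_summable : Summable fun i => Metric.diam (K i)

/-- The set `S` of all sums `∑ x_i` with `x_i ∈ K_i`. -/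
def sumSet (K : ℕ → Set ℝ) : Set ℝ := {s | ∃ x : ℕ → ℝ, (∀ i, x i ∈ K i) ∧ HasSum x s}

/-- **The sets of sums are, up to homeomorphism, all nonempty compact perfect subsets of the line.** -/
theorem result (X : Set ℝ) :
    (∃ K : ℕ → Set ℝ, Admissible K ∧ Nonempty (X ≃ₜ sumSet K)) ↔
      X.Nonempty ∧ IsCompact X ∧ Perfect X := by
  constructor
  · rintro ⟨K, hK, e⟩
    have h := (Pool.Agent.R221.TS.main X).1 ⟨K, ⟨hK.compact, hK.zero_mem, fun i x hx => hK.nonneg i hx,
      hK.diam_pos, hK.diam_tendsto, hK.diam_summable⟩, e⟩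
    exact ⟨h.1, h.2.1, h.2.1.isClosed, h.2.2⟩
  · rintro ⟨h1, h2, h3⟩
    obtain ⟨K, hK, e⟩ := (Pool.Agent.R221.TS.main X).2 ⟨h1, h2, h3.acc⟩
    exact ⟨K, ⟨hK.compact, hK.zero_mem, fun i x hx => hK.nonneg i x hx, hK.diam_pos, hK.diam_tendsto,
      hK.diam_summable⟩, e⟩

end Pool.Agent.Results.MP_8027ba_an.AllPerfectSets
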